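import Mathlib
import Pool.Agent.W2helper2.RG.Stm
import Pool.Agent.W2helper24.TQ.A7
import Pool.Agent.W2helper89.TQ.E2

/-!
# Piece S1 of project RG (helper2): primes of `L = F(i)` stable under the conjugation
-/

set_option autoImplicit false

namespace Pool.Agent.W2helper24.RG

open NumberField IsDedekindDomain WithZero
open Pool.Agent.Y696 (und und_lies val_aut mem_under_of_lies int_rep val_prime_F)
open Pool.Agent.W2helper24.TQ Pool.Agent.W2helper2.RG

section K
variable {K : Type} [Field K] [NumberField K] [IsCyclotomicExtension {3} ℚ K]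

/-- in the residue field of the prime of `K` above `3`, `-1` is not a square -/
lemma no_sqrt_three (v : HeightOneSpectrum (𝓞 K)) (hv : (3 : 𝓞 K) ∈ v.asIdeal) (x : 𝓞 K) :
    x ^ 2 + 1 ∉ v.asIdeal := by
  intro hx
  obtain ⟨w, hw⟩ := Pool.Agent.W2helper89.TQE2.exists_om K
  have hrel : hw.toInteger ^ 2 + hw.toInteger + 1 = 0 := by
    have h3 : hw.toInteger ^ 3 = 1 := hw.toInteger_isPrimitiveRoot.pow_eq_one
    have h4 : hw.toInteger ≠ 1 := hw.toInteger_isPrimitiveRoot.ne_one (by norm_num)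
    have h5 : (hw.toInteger - 1) * (hw.toInteger ^ 2 + hw.toInteger + 1) = 0 := by
      linear_combination h3
    exact (mul_eq_zero.1 h5).resolve_left (sub_ne_zero.2 h4)
  obtain ⟨a, b, hab⟩ := int_rep hw x
  have h1 : hw.toInteger - 1 ∈ v.asIdeal := by
    have : (hw.toInteger - 1) * (hw.toInteger - 1) = 3 * (-hw.toInteger) := by
      linear_combination hrel
    have h2 : (hw.toInteger - 1) * (hw.toInteger - 1) ∈ v.asIdeal := by
      rw [this]
      exact v.asIdeal.mul_mem_right _ hv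
    exact (v.isPrime.mem_or_mem h2).elim id id
  have ht : x - ((a + b : ℤ) : 𝓞 K) ∈ v.asIdeal := by
    have : x - ((a + b : ℤ) : 𝓞 K) = (b : 𝓞 K) * (hw.toInteger - 1) := by
      rw [hab]; push_cast; ring
    rw [this]
    exact v.asIdeal.mul_mem_left _ h1
  have h2 : (((a + b) ^ 2 + 1 : ℤ) : 𝓞 K) ∈ v.asIdeal := by
    have : (((a + b) ^ 2 + 1 : ℤ) : 𝓞 K) =
        (x ^ 2 + 1) - (x + ((a + b : ℤ) : 𝓞 K)) * (x - ((a + b : ℤ) : 𝓞 K)) := by
      push_cast; ring
    rw [this]
    exact v.asIdeal.sub_mem hx (v.asIdeal.mul_mem_left _ ht)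
  have h3 : IsCoprime (3 : ℤ) ((a + b) ^ 2 + 1) := by
    refine (Prime.coprime_iff_not_dvd (Nat.prime_iff_prime_int.1 Nat.prime_three)).2 ?_
    intro h
    have h4 : (((a + b) ^ 2 + 1 : ℤ) : ZMod 3) = 0 := by
      have := (ZMod.intCast_zmod_eq_zero_iff_dvd ((a + b) ^ 2 + 1) 3).2 (by exact_mod_cast h)
      exact this
    push_cast at h4
    generalize ((a : ZMod 3) + (b : ZMod 3)) = c at h4
    revert h4
    revert c
    decide
  obtain ⟨α, β, hαβ⟩ := h3
  apply v.isPrime.ne_top
  rw [Ideal.eq_top_iff_one]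
  have h4 := congrArg (Int.cast : ℤ → 𝓞 K) hαβ
  rw [Int.cast_add, Int.cast_mul, Int.cast_mul, Int.cast_one, Int.cast_ofNat] at h4
  rw [← h4]
  exact v.asIdeal.add_mem (v.asIdeal.mul_mem_left _ hv) (v.asIdeal.mul_mem_left _ h2)

end K

section ML
variable {M L : Type} [Field M] [NumberField M] [Field L] [NumberField L] [Algebra M L]
  [IsGalois M L]

/-- primes over the same prime are conjugate -/
lemma trans_val {w w' : HeightOneSpectrum (𝓞 L)}
    (h : ∀ x : 𝓞 M, algebraMap (𝓞 M) (𝓞 L) x ∈ w.asIdeal ↔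
      algebraMap (𝓞 M) (𝓞 L) x ∈ w'.asIdeal) :
    ∃ g : Gal(L/M), ∀ x : L, w'.valuation L x = w.valuation L (g x) := by
  have hlo : w.asIdeal.LiesOver (und (F := M) w).asIdeal := und_lies (F := M) w
  have hlo' : w'.asIdeal.LiesOver (und (F := M) w).asIdeal := by
    refine ⟨?_⟩
    ext x
    rw [Ideal.under_def, Ideal.mem_comap, ← h, mem_under_of_lies hlo]
  have h1 : w.asIdeal.IsPrime := w.isPrime
  have h2 : w'.asIdeal.IsPrime := w'.isPrime
  obtain ⟨g, hg⟩ := Ideal.exists_smul_eq_of_isGaloisGroup (und (F := M) w).asIdeal w'.asIdeal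
    w.asIdeal Gal(L/M)
  obtain ⟨v', hv'⟩ := val_aut (g : L ≃+* L) w
  have h3 : v' = w' := by
    apply HeightOneSpectrum.ext
    ext x
    rw [← HeightOneSpectrum.valuation_lt_one_iff_mem (K := L), ← hv']
    have h4 : (g : L ≃+* L) (x : L) = ((g • x : 𝓞 L) : L) := rfl
    rw [h4, HeightOneSpectrum.valuation_lt_one_iff_mem, ← hg, Ideal.smul_mem_pointwise_smul_iff]
  refine ⟨g, fun x => ?_⟩
  rw [← h3, ← hv']
  rfl

end ML

section
variable {K F M L : Type} [Field K] [NumberField K] [IsCyclotomicExtension {3} ℚ K]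
  [Field F] [NumberField F] [Algebra K F] [IsGalois K F]
  [Field M] [NumberField M]
  [Algebra K M] [Field L] [NumberField L] [Algebra K L] [Algebra F L] [Algebra M L]
  [IsScalarTower K F L] [IsScalarTower K M L] [IsGalois M L] {i : M} {σM : M ≃ₐ[K] M}
  {σ : L ≃ₐ[F] L} {n : ℕ}

omit [IsCyclotomicExtension {3} ℚ K] [IsGalois K F] [IsGalois M L] in
lemma fixO (T : Tow K F M L i σM σ n) (z : 𝓞 M) (h : σM (z : M) = z) :
    ∃ k : 𝓞 K, algebraMap (𝓞 K) (𝓞 M) k = z := by
  obtain ⟨k, hk⟩ := T.fixK _ h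
  have hkint : IsIntegral ℤ k := by
    have h1 : IsIntegral ℤ (algebraMap K M k) := by
      rw [hk]
      exact z.isIntegral_coe
    exact (isIntegral_algebraMap_iff (algebraMap K M).injective).1 h1
  exact ⟨⟨k, hkint⟩, RingOfIntegers.ext hk⟩

omit [IsGalois K F] [IsGalois M L] in
/-- the prime above `2` is stable -/
lemma two_stable (T : Tow K F M L i σM σ n) {u : HeightOneSpectrum (𝓞 M)}
    (h2 : (2 : 𝓞 M) ∈ u.asIdeal) (m : M) : u.valuation M (σM m) = u.valuation M m := by
  set s : 𝓞 M ≃+* 𝓞 M := RingOfIntegers.mapRingEquiv (σM : M ≃+* M) with hs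
  have hscoe : ∀ x : 𝓞 M, ((s x : 𝓞 M) : M) = σM (x : M) := fun x => rfl
  have hσσ : ∀ x : M, σM (σM x) = x := by
    intro x
    apply (algebraMap M L).injective
    rw [← T.res, ← T.res, T.sq]
  have hss : ∀ x : 𝓞 M, s (s x) = x := fun x => RingOfIntegers.ext (by rw [hscoe, hscoe, hσσ])
  have hsi : s (iO T) = -iO T := RingOfIntegers.ext (by
    rw [hscoe]
    exact T.si)
  have hinj : Function.Injective (algebraMap (𝓞 K) (𝓞 M)) := by
    intro a b hab
    apply RingOfIntegers.ext
    apply (algebraMap K M).injective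
    exact congrArg (fun x : 𝓞 M => (x : M)) hab
  have hlo : u.asIdeal.LiesOver (und (F := K) u).asIdeal := und_lies (F := K) u
  set v := und (F := K) u with hvdef
  have hv2 : (2 : 𝓞 K) ∈ v.asIdeal := by
    rw [mem_under_of_lies hlo, map_ofNat]
    exact h2
  have hval2 : v.valuation K 2 = exp (-1 : ℤ) := by
    have := val_prime_F Nat.prime_two (by norm_num) v (by exact_mod_cast hv2)
    exact_mod_cast this
  have key : ∀ z : 𝓞 M, z - s z ∈ u.asIdeal := by
    intro z
    obtain ⟨t, ht⟩ := fixO T (z + s z) (by rw [← hscoe, map_add, hss, add_comm])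
    obtain ⟨N, hN⟩ := fixO T (z * s z) (by rw [← hscoe, map_mul, hss, mul_comm])
    obtain ⟨k, hk⟩ := fixO T (iO T * (z - s z)) (by
      rw [← hscoe, map_mul, map_sub, hss, hsi]
      congr 1
      ring)
    have h3 : (t + k) * (t + k) = 2 * (2 * N + t * k) := by
      apply hinj
      rw [map_mul, map_add, map_mul, map_add, map_mul, map_mul, map_ofNat, ht, hN, hk]
      linear_combination (z - s z) ^ 2 * iO_sq T
    have h4 : t + k ∈ v.asIdeal := by
      have h5 : (t + k) * (t + k) ∈ v.asIdeal := by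
        rw [h3]
        exact v.asIdeal.mul_mem_right _ hv2
      exact (v.isPrime.mem_or_mem h5).elim id id
    have h6 : 2 * N + t * k ∈ v.asIdeal := by
      rw [← HeightOneSpectrum.valuation_lt_one_iff_mem (K := K)] at h4 ⊢
      have h7 : v.valuation K ((t + k : 𝓞 K) : K) * v.valuation K ((t + k : 𝓞 K) : K) =
          exp (-1 : ℤ) * v.valuation K ((2 * N + t * k : 𝓞 K) : K) := by
        have h3' : ((t + k : 𝓞 K) : K) * ((t + k : 𝓞 K) : K) = 2 * ((2 * N + t * k : 𝓞 K) : K) := by
          have := congrArg (fun x : 𝓞 K => (x : K)) h3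
          push_cast at this ⊢
          exact this
        rw [← hval2, ← map_mul (v.valuation K), ← map_mul (v.valuation K)]
        exact congrArg (v.valuation K) h3'
      by_contra hcon
      rw [not_lt] at hcon
      have h8 : exp (-1 : ℤ) * 1 ≤ exp (-1 : ℤ) * v.valuation K ((2 * N + t * k : 𝓞 K) : K) :=
        mul_le_mul_right hcon _
      rw [← h7, mul_one] at h8
      by_cases h0 : v.valuation K ((t + k : 𝓞 K) : K) = 0
      · rw [h0, mul_zero] at h8
        exact absurd (le_zero_iff.1 h8) exp_ne_zero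
      · obtain ⟨j, hj⟩ := exp_rep' h0
        change v.valuation K ((t + k : 𝓞 K) : K) < 1 at h4
        rw [hj, ← exp_zero, exp_lt_exp] at h4
        rw [hj, ← exp_add, exp_le_exp] at h8
        omega
    have h9 : t * k ∈ v.asIdeal := by
      have : t * k = (2 * N + t * k) - 2 * N := by ring
      rw [this]
      exact v.asIdeal.sub_mem h6 (v.asIdeal.mul_mem_right _ hv2)
    have h10 : k ∈ v.asIdeal := by
      rcases v.isPrime.mem_or_mem h9 with h | h
      · have : k = (t + k) - t := by ring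
        rw [this]
        exact v.asIdeal.sub_mem h4 h
      · exact h
    rw [mem_under_of_lies hlo, hk] at h10
    have h11 := u.asIdeal.mul_mem_left (-iO T) h10
    have h12 : -iO T * (iO T * (z - s z)) = z - s z := by
      linear_combination -(z - s z) * iO_sq T
    rwa [h12] at h11
  obtain ⟨u'', hu''⟩ := val_aut (σM : M ≃+* M) u
  have h3 : u'' = u := by
    apply HeightOneSpectrum.ext
    ext x
    rw [← HeightOneSpectrum.valuation_lt_one_iff_mem (K := M), ← hu'']
    have h4 : (σM : M ≃+* M) (x : M) = ((s x : 𝓞 M) : M) := rfl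
    rw [h4, HeightOneSpectrum.valuation_lt_one_iff_mem]
    constructor
    · intro h
      have := u.asIdeal.add_mem (key x) h
      rwa [sub_add_cancel] at this
    · intro h
      have := u.asIdeal.sub_mem h (key x)
      rwa [sub_sub_cancel] at this
  rw [h3] at hu''
  exact hu'' m

end

theorem s1 : P_S1 := by
  intro K F _ _ _ _ _ _ _ n hn M L _ _ _ _ _ _ _ _ _ _ _ _ i σM σ T p hp hp3 w hw
  have hlo : w.asIdeal.LiesOver (und (F := M) w).asIdeal := und_lies (F := M) w
  set u := und (F := M) w with hudef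
  have hpu : (p : 𝓞 M) ∈ u.asIdeal := by
    rw [mem_under_of_lies hlo, map_natCast]
    exact hw
  have hloK : u.asIdeal.LiesOver (und (F := K) u).asIdeal := und_lies (F := K) u
  have hpv : (p : 𝓞 K) ∈ (und (F := K) u).asIdeal := by
    rw [mem_under_of_lies hloK, map_natCast]
    exact hpu
  have hu : ∀ m : M, u.valuation M (σM m) = u.valuation M m := by
    intro m
    rcases hp3 with rfl | rfl | h7
    · exact two_stable T (by exact_mod_cast hpu) m
    · refine T.stable (fun x hx => ?_) m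
      rw [← mem_under_of_lies hloK] at hx
      exact no_sqrt_three _ (by exact_mod_cast hpv) x hx
    · refine T.stable (fun x hx => ?_) m
      rw [← mem_under_of_lies hloK] at hx
      exact Pool.Agent.W2helper89.TQE2.no_sqrt hp h7 _ hpv x hx
  obtain ⟨w', hw'⟩ := val_aut (σ : L ≃+* L) w
  have hw1 : ∀ x, w.valuation L (σ x) = w'.valuation L x := hw'
  have key : ∀ x : 𝓞 M, algebraMap (𝓞 M) (𝓞 L) x ∈ w.asIdeal ↔
      algebraMap (𝓞 M) (𝓞 L) x ∈ w'.asIdeal := by
    intro x
    set s : 𝓞 M ≃+* 𝓞 M := RingOfIntegers.mapRingEquiv (σM : M ≃+* M) with hs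
    have h1 : algebraMap (𝓞 M) (𝓞 L) x ∈ w'.asIdeal ↔ algebraMap (𝓞 M) (𝓞 L) (s x) ∈ w.asIdeal := by
      rw [← HeightOneSpectrum.valuation_lt_one_iff_mem (K := L), ← hw1,
        ← HeightOneSpectrum.valuation_lt_one_iff_mem (K := L)]
      have : σ (algebraMap (𝓞 L) L (algebraMap (𝓞 M) (𝓞 L) x)) =
          algebraMap (𝓞 L) L (algebraMap (𝓞 M) (𝓞 L) (s x)) := T.res (x : M)
      rw [this]
    rw [h1, ← mem_under_of_lies hlo, ← mem_under_of_lies hlo,
      ← HeightOneSpectrum.valuation_lt_one_iff_mem (K := M),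
      ← HeightOneSpectrum.valuation_lt_one_iff_mem (K := M)]
    exact ⟨fun h => (hu (x : M)).trans_lt h, fun h => (hu (x : M)).symm.trans_lt h⟩
  obtain ⟨g, hg⟩ := trans_val key
  have h1 : ∀ x, w.valuation L (σ x) = w.valuation L (g x) := fun x => by rw [hw1, hg]
  have h2 : ∀ (k : ℕ) (y : L), w.valuation L ((⇑σ)^[k] (((g⁻¹) ^ k : Gal(L/M)) y)) =
      w.valuation L y := by
    intro k
    induction k with
    | zero => intro y; rfl
    | succ k ih =>
      intro y
      rw [Function.iterate_succ_apply, pow_succ]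
      have h3 : σ (((g⁻¹) ^ k * g⁻¹ : Gal(L/M)) y) = ((g⁻¹) ^ k : Gal(L/M)) (σ (g⁻¹ y)) := by
        rw [AlgEquiv.mul_apply, T.comm]
      rw [h3, ih, h1]
      congr 1
      exact AlgEquiv.apply_symm_apply g y
  have hg1 : (g⁻¹) ^ (3 ^ n) = 1 := by
    have h4 : Nat.card Gal(L/M) = 3 ^ n := by
      rw [IsGalois.card_aut_eq_finrank, T.fr]
    rw [← h4]
    exact pow_card_eq_one'
  have hodd : ∀ (k : ℕ) (y : L), (⇑σ)^[2 * k + 1] y = σ y := by
    intro k
    induction k with
    | zero => intro y; rfl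
    | succ k ih =>
      intro y
      have : 2 * (k + 1) + 1 = (2 * k + 1) + 1 + 1 := by ring
      rw [this, Function.iterate_succ_apply, Function.iterate_succ_apply, ih, T.sq]
  intro x
  obtain ⟨k, hk⟩ : Odd (3 ^ n) := Odd.pow (by decide)
  have h5 := h2 (3 ^ n) x
  rw [hg1, hk, hodd] at h5
  exact h5

end Pool.Agent.W2helper24.RG
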